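import Mathlib

/-!
# Removing the weights from the question on bull-free MNWD graphs

Every bull-free minimally non-perfectly-weight-divisible graph is triangle-free if and only if every
bull-free graph whose triangle-free induced subgraphs are all 3-colourable is perfectly divisible.
-/

set_option autoImplicit false

namespace Pool.Agent.Results.MP_1d20d9_co.Pollyanna

open SimpleGraph

/-- `G` is perfect: in every induced subgraph the chromatic number is at most the clique number,
that is, an induced subgraph without cliques of `k + 1` vertices is `k`-colourable. -/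
def Perfect {V : Type} (G : SimpleGraph V) : Prop :=
  ∀ (S : Set V) (k : ℕ), (G.induce S).CliqueFree (k + 1) → (G.induce S).Colorable k

/-- A good split of the induced subgraph on `S` for the weight `w`: `S` is the disjoint union of `P`
and `W`, the graph on `P` is perfect, and some clique in `S` has larger weight than every clique in
`W`. -/
def GoodSplit {V : Type} (G : SimpleGraph V) (w : V → ℕ) (S P W : Set V) : Prop :=
  P ∪ W = S ∧ Disjoint P W ∧ Perfect (G.induce P) ∧
    ∃ Q : Finset V, (Q : Set V) ⊆ S ∧ G.IsClique Q ∧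
      ∀ K : Finset V, (K : Set V) ⊆ W → G.IsClique K → ∑ v ∈ K, w v < ∑ v ∈ Q, w v

/-- Perfectly weight divisible. -/
def PWD {V : Type} (G : SimpleGraph V) : Prop :=
  ∀ w : V → ℕ, (∀ v, 0 < w v) → ∀ S : Set V, S.Nonempty → ∃ P W, GoodSplit G w S P W

/-- Perfectly divisible. -/
def PD {V : Type} (G : SimpleGraph V) : Prop :=
  ∀ S : Set V, S.Nonempty → ∃ P W, GoodSplit G (fun _ => 1) S P W

/-- Minimally non-perfectly weight divisible. -/
def MNWD {V : Type} (G : SimpleGraph V) : Prop :=
  ¬ PWD G ∧ ∀ S : Set V, S ≠ Set.univ → PWD (G.induce S)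

/-- No induced bull: triangle `a b c` with pendant edges `a d` and `b e`. -/
def BullFree {V : Type} (G : SimpleGraph V) : Prop :=
  ¬ ∃ a b c d e : V, G.Adj a b ∧ G.Adj b c ∧ G.Adj a c ∧ G.Adj a d ∧ G.Adj b e ∧
    ¬ G.Adj a e ∧ ¬ G.Adj b d ∧ ¬ G.Adj c d ∧ ¬ G.Adj c e ∧ ¬ G.Adj d e

lemma Perfect.of_embedding {V V' : Type} {G : SimpleGraph V} {G' : SimpleGraph V'}
    (φ : G ↪g G') (h : Perfect G') : Perfect G := by
  intro S k hS
  have e : (G.induce S) ≃g (G'.induce (φ '' S)) :=
    { toEquiv := Equiv.Set.image φ S φ.injective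
      map_rel_iff' := by
        intro a b
        exact φ.map_adj_iff }
  have h1 : (G'.induce (φ '' S)).CliqueFree (k + 1) := hS.comap ⟨e.symm.toEmbedding.toCopy⟩
  exact (h (φ '' S) k h1).of_hom e.toEmbedding.toHom

lemma BullFree.of_embedding {V V' : Type} {G : SimpleGraph V} {G' : SimpleGraph V'}
    (φ : G ↪g G') (h : BullFree G') : BullFree G := by
  rintro ⟨a, b, c, d, e, h1⟩
  apply h
  refine ⟨φ a, φ b, φ c, φ d, φ e, ?_⟩
  simpa only [φ.map_adj_iff] using h1

/-- Pull back of a good split along an embedding. -/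
lemma GoodSplit.pull {V V' : Type} {G : SimpleGraph V} {G' : SimpleGraph V'}
    (φ : G ↪g G') {w : V → ℕ} {w' : V' → ℕ} (hw : ∀ v, w' (φ v) = w v) {S : Set V}
    {P' W' : Set V'} (h : GoodSplit G' w' (φ '' S) P' W') :
    GoodSplit G w S (φ ⁻¹' P') (φ ⁻¹' W') := by
  classical
  obtain ⟨h1, h2, h3, Q', hQ1, hQ2, hQ3⟩ := h
  refine ⟨?_, ?_, ?_, ?_⟩
  · rw [← Set.preimage_union, h1, Set.preimage_image_eq _ φ.injective]
  · exact h2.preimage φ
  · exact Perfect.of_embedding
      { toFun := fun v => ⟨φ v.1, v.2⟩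
        inj' := by
          intro v v' hv
          have : φ v.1 = φ v'.1 := congrArg Subtype.val hv
          exact Subtype.ext (φ.injective this)
        map_rel_iff' := by
          intro a b
          exact φ.map_adj_iff } h3
  · have hpre : (Q'.preimage φ φ.injective.injOn).map φ.toEmbedding = Q' := by
      rw [Finset.map_eq_image]
      refine (Finset.image_preimage_of_bij φ Q' ?_)
      refine ⟨fun x hx => hx, φ.injective.injOn, ?_⟩
      intro y hy
      obtain ⟨x, -, hx⟩ := hQ1 hy
      exact ⟨x, by rw [Set.mem_preimage, hx]; exact hy, hx⟩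
    refine ⟨Q'.preimage φ φ.injective.injOn, ?_, ?_, ?_⟩
    · intro x hx
      have hx' : φ x ∈ Q' := by simpa using hx
      obtain ⟨y, hy, hyx⟩ := hQ1 hx'
      rw [← φ.injective hyx]
      exact hy
    · intro x hx y hy hxy
      have hx' : φ x ∈ Q' := by simpa using hx
      have hy' : φ y ∈ Q' := by simpa using hy
      exact φ.map_adj_iff.1 (hQ2 hx' hy' (fun h => hxy (φ.injective h)))
    · intro K hK hKc
      have h4 := hQ3 (K.map φ.toEmbedding) (by
        intro x hx
        simp only [Finset.coe_map, Set.mem_image] at hx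
        obtain ⟨y, hy, rfl⟩ := hx
        exact hK hy) (by
        intro x hx y hy hxy
        simp only [Finset.coe_map, Set.mem_image] at hx hy
        obtain ⟨x', hx', rfl⟩ := hx
        obtain ⟨y', hy', rfl⟩ := hy
        exact φ.map_adj_iff.2 (hKc hx' hy' (fun h => hxy (by rw [h]))))
      rw [← hpre] at h4
      simp only [Finset.sum_map] at h4
      have h5 : ∀ v, w' (φ.toEmbedding v) = w v := hw
      simpa only [h5] using h4

lemma PWD.of_embedding {V V' : Type} {G : SimpleGraph V} {G' : SimpleGraph V'}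
    (φ : G ↪g G') (h : PWD G') : PWD G := by
  classical
  intro w hw S hS
  have hex : ∀ v, Function.extend φ w (fun _ => 1) (φ v) = w v := fun v =>
    φ.injective.extend_apply _ _ _
  obtain ⟨P', W', h1⟩ := h (Function.extend φ w (fun _ => 1)) (by
    intro x
    by_cases hx : ∃ v, φ v = x
    · obtain ⟨v, rfl⟩ := hx
      rw [hex]
      exact hw v
    · rw [Function.extend_apply' _ _ _ hx]
      exact Nat.one_pos) (φ '' S) (hS.image φ)
  exact ⟨_, _, h1.pull φ hex⟩

/-- A graph which is not perfectly weight divisible has a minimal such induced subgraph. -/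
lemma exists_mnwd {V : Type} [Finite V] (G : SimpleGraph V) (h : ¬ PWD G) :
    ∃ S : Set V, MNWD (G.induce S) := by
  classical
  have h0 : ¬ PWD (G.induce (Set.univ : Set V)) := by
    intro h1
    apply h
    exact h1.of_embedding
      { toFun := fun v => ⟨v, Set.mem_univ v⟩
        inj' := fun v v' hv => congrArg Subtype.val hv
        map_rel_iff' := Iff.rfl }
  obtain ⟨S, hS1, hS2⟩ := (Set.toFinite {S : Set V | ¬ PWD (G.induce S)}).exists_minimal
    ⟨Set.univ, h0⟩
  refine ⟨S, hS1, ?_⟩
  intro T hT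
  by_contra hcon
  have h1 : (Subtype.val '' T : Set V) ∈ {S : Set V | ¬ PWD (G.induce S)} := by
    intro h2
    apply hcon
    exact h2.of_embedding
      { toFun := fun v => ⟨v.1.1, ⟨v.1, v.2, rfl⟩⟩
        inj' := by
          intro v v' hv
          have : v.1.1 = v'.1.1 := Subtype.mk.inj hv
          exact Subtype.ext (Subtype.ext this)
        map_rel_iff' := Iff.rfl }
  have h2 := hS2 h1 (by
    rintro _ ⟨x, -, rfl⟩
    exact x.2)
  apply hT
  ext x
  simp only [Set.mem_univ, iff_true]
  obtain ⟨y, hy, hyx⟩ := h2 x.2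
  rwa [Subtype.ext hyx] at hy

lemma perfect_of_two {V : Type} {G : SimpleGraph V} (h : G.Colorable 2) : Perfect G := by
  intro S k hS
  have h2 : (G.induce S).Colorable 2 := h.of_hom (SimpleGraph.Embedding.induce S).toHom
  rcases k with _ | _ | k
  · rw [SimpleGraph.cliqueFree_one] at hS
    exact (SimpleGraph.colorable_zero_iff).2 hS
  · rw [SimpleGraph.cliqueFree_two] at hS
    refine ⟨SimpleGraph.Coloring.mk (fun _ => 0) ?_⟩
    intro a b hab
    rw [hS] at hab
    exact absurd hab (fun h => h)
  · exact h2.mono (by omega)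

/-- Lemma A: 3-colourable graphs are perfectly weight divisible. -/
lemma pwd_of_three {V : Type} [Finite V] {G : SimpleGraph V} (h : G.Colorable 3) : PWD G := by
  classical
  intro w hw S hS
  obtain ⟨C⟩ := h
  set W : Set V := {v | v ∈ S ∧ C v = 2 ∧ ∃ u ∈ S, G.Adj v u} with hWdef
  have hWS : W ⊆ S := fun v hv => hv.1
  refine ⟨S \ W, W, Set.sdiff_union_of_subset hWS, Set.disjoint_sdiff_left, ?_, ?_⟩
  · apply perfect_of_two
    refine ⟨SimpleGraph.Coloring.mk (fun v => if C v.1 = 1 then 1 else 0) ?_⟩
    rintro ⟨a, ha⟩ ⟨b, hb⟩ hab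
    have hab' : G.Adj a b := hab
    have hC := C.valid hab'
    have ha2 : C a ≠ 2 := fun h => ha.2 ⟨ha.1, h, b, hb.1, hab'⟩
    have hb2 : C b ≠ 2 := fun h => hb.2 ⟨hb.1, h, a, ha.1, hab'.symm⟩
    generalize C a = x at *
    generalize C b = y at *
    revert x y
    decide
  · have hone : ∀ K : Finset V, (K : Set V) ⊆ W → G.IsClique K → ∀ x ∈ K, K = {x} := by
      intro K hK hKc x hx
      ext y
      rw [Finset.mem_singleton]
      constructor
      · intro hy
        by_contra hne
        have hadj := hKc (Finset.mem_coe.2 hy) (Finset.mem_coe.2 hx) hne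
        have := C.valid hadj
        rw [(hK hy).2.1, (hK hx).2.1] at this
        exact this rfl
      · rintro rfl
        exact hx
    by_cases hW : W.Nonempty
    · obtain ⟨v, hv, hmax⟩ := Set.exists_max_image W w (Set.toFinite _) hW
      obtain ⟨hvS, -, u, huS, hvu⟩ := hv
      refine ⟨{v, u}, ?_, ?_, ?_⟩
      · intro x hx
        simp only [Finset.coe_insert, Finset.coe_singleton, Set.mem_insert_iff,
          Set.mem_singleton_iff] at hx
        rcases hx with rfl | rfl <;> assumption
      · intro x hx y hy hxy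
        simp only [Finset.coe_insert, Finset.coe_singleton, Set.mem_insert_iff,
          Set.mem_singleton_iff] at hx hy
        rcases hx with rfl | rfl <;> rcases hy with rfl | rfl
        · exact absurd rfl hxy
        · exact hvu
        · exact hvu.symm
        · exact absurd rfl hxy
      · intro K hK hKc
        rw [Finset.sum_pair hvu.ne]
        have h1 := hw v
        have h2 := hw u
        rcases K.eq_empty_or_nonempty with hKe | ⟨x, hx⟩
        · rw [hKe, Finset.sum_empty]
          omega
        · rw [hone K hK hKc x hx, Finset.sum_singleton]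
          have := hmax x (hK hx)
          omega
    · obtain ⟨v, hv⟩ := hS
      refine ⟨{v}, by simpa using hv, by simp, ?_⟩
      intro K hK hKc
      rcases K.eq_empty_or_nonempty with hKe | ⟨x, hx⟩
      · rw [hKe, Finset.sum_empty, Finset.sum_singleton]
        exact hw v
      · exact absurd ⟨x, hK hx⟩ hW

/-- Lemma B: triangle-free perfectly divisible graphs are 3-colourable. -/
lemma three_of_pd {V : Type} {G : SimpleGraph V} (hf : G.CliqueFree 3) (h : PD G) :
    G.Colorable 3 := by
  classical
  by_cases hV : Nonempty V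
  · obtain ⟨P, W, h1, h2, h3, Q, hQ1, hQ2, hQ3⟩ := h Set.univ Set.univ_nonempty
    have hQc : Q.card ≤ 2 := by
      by_contra hcon
      push Not at hcon
      obtain ⟨Q', hQ', hc⟩ := Finset.exists_subset_card_eq (s := Q) (n := 3) (by omega)
      exact hf Q' ⟨hQ2.subset (by exact_mod_cast hQ'), hc⟩
    have hW : ∀ a ∈ W, ∀ b ∈ W, ¬ G.Adj a b := by
      intro a ha b hb hab
      have h4 := hQ3 {a, b} (by
        intro x hx
        simp only [Finset.coe_insert, Finset.coe_singleton, Set.mem_insert_iff,
          Set.mem_singleton_iff] at hx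
        rcases hx with rfl | rfl <;> assumption) (by
        intro x hx y hy hxy
        simp only [Finset.coe_insert, Finset.coe_singleton, Set.mem_insert_iff,
          Set.mem_singleton_iff] at hx hy
        rcases hx with rfl | rfl <;> rcases hy with rfl | rfl
        · exact absurd rfl hxy
        · exact hab
        · exact hab.symm
        · exact absurd rfl hxy)
      simp only [Finset.sum_const, smul_eq_mul, mul_one, Finset.card_pair hab.ne] at h4
      omega
    have hP : (G.induce P).Colorable 2 := by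
      have h5 := h3 Set.univ 2 (by
        intro s hs
        have hs' : G.IsNClique 3 (s.map ((Function.Embedding.subtype _).trans
            (Function.Embedding.subtype _))) := by
          refine ⟨?_, ?_⟩
          · intro x hx y hy hxy
            simp only [Finset.coe_map, Set.mem_image] at hx hy
            obtain ⟨x', hx', rfl⟩ := hx
            obtain ⟨y', hy', rfl⟩ := hy
            exact hs.1 hx' hy' (fun h => hxy (by rw [h]))
          · rw [Finset.card_map]
            exact hs.2
        exact hf _ hs')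
      exact h5.of_hom
        { toFun := fun v => ⟨v, Set.mem_univ v⟩
          map_rel' := fun {a b} h => h }
    obtain ⟨C⟩ := hP
    refine ⟨SimpleGraph.Coloring.mk
      (fun v => if hv : v ∈ P then Fin.castSucc (C ⟨v, hv⟩) else Fin.last 2) ?_⟩
    intro a b hab
    have hW' : ∀ v, v ∉ P → v ∈ W := by
      intro v hv
      have : v ∈ P ∪ W := by rw [h1]; exact Set.mem_univ v
      exact this.resolve_left hv
    by_cases ha : a ∈ P <;> by_cases hb : b ∈ P
    · simp only [ha, hb, dif_pos]
      intro he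
      exact C.valid (v := ⟨a, ha⟩) (w := ⟨b, hb⟩) hab (Fin.castSucc_injective _ he)
    · simp only [ha, hb, dif_pos, dif_neg, not_false_iff]
      exact (Fin.castSucc_lt_last _).ne
    · simp only [ha, hb, dif_pos, dif_neg, not_false_iff]
      exact (Fin.castSucc_lt_last _).ne'
    · exact absurd hab (hW a (hW' a ha) b (hW' b hb))
  · rw [not_nonempty_iff] at hV
    exact ⟨SimpleGraph.Coloring.mk (fun v => hV.elim v) (fun {a} => hV.elim a)⟩

/-- Each vertex `v` is replaced by a clique with `w v` vertices. -/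
def blow {V : Type} (G : SimpleGraph V) (w : V → ℕ) : SimpleGraph (Σ v : V, Fin (w v)) where
  Adj x y := x ≠ y ∧ (x.1 = y.1 ∨ G.Adj x.1 y.1)
  symm := ⟨fun _ _ h => ⟨h.1.symm, h.2.imp Eq.symm SimpleGraph.Adj.symm⟩⟩
  loopless := ⟨fun _ h => h.1 rfl⟩

lemma blow_adj_of_fst {V : Type} {G : SimpleGraph V} {w : V → ℕ} {x y z : Σ v : V, Fin (w v)}
    (hxy : x.1 = y.1) (hz : z ≠ y) (h : (blow G w).Adj x z) : (blow G w).Adj y z := by
  refine ⟨hz.symm, ?_⟩
  rw [← hxy]
  exact h.2

lemma blow_bullFree {V : Type} {G : SimpleGraph V} (w : V → ℕ) (h : BullFree G) :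
    BullFree (blow G w) := by
  rintro ⟨a, b, c, d, e, ab, bc, ac, ad, be, nae, nbd, ncd, nce, nde⟩
  -- adjacent vertices of the bull are in different cliques
  have hadj : ∀ x y z, (blow G w).Adj x y → (blow G w).Adj x z → ¬ (blow G w).Adj y z → z ≠ y →
      G.Adj x.1 y.1 := by
    intro x y z hxy hxz hyz hzy
    rcases hxy.2 with h1 | h1
    · exact absurd (blow_adj_of_fst h1 hzy hxz) hyz
    · exact h1
  have hnadj : ∀ x y, x ≠ y → ¬ (blow G w).Adj x y → ¬ G.Adj x.1 y.1 := fun x y hne hn h1 =>
    hn ⟨hne, Or.inr h1⟩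
  have hae : a ≠ e := by rintro rfl; exact nce ac.symm
  have hbd : b ≠ d := by rintro rfl; exact ncd bc.symm
  have hcd : c ≠ d := by rintro rfl; exact nbd bc
  have hce : c ≠ e := by rintro rfl; exact nae ac
  have hde : d ≠ e := by rintro rfl; exact nae ad
  exact h ⟨a.1, b.1, c.1, d.1, e.1, hadj a b d ab ad nbd hbd.symm,
    hadj b c e bc be nce hce.symm, hadj a c d ac ad ncd hcd.symm,
    hadj a d b ad ab (fun h1 => nbd h1.symm) hbd,
    hadj b e a be ab.symm (fun h1 => nae h1.symm) hae, hnadj _ _ hae nae, hnadj _ _ hbd nbd, hnadj _ _ hcd ncd, hnadj _ _ hce nce,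
    hnadj _ _ hde nde⟩

lemma blow_three {V : Type} {G : SimpleGraph V} (w : V → ℕ)
    (h : ∀ S : Set V, (G.induce S).CliqueFree 3 → (G.induce S).Colorable 3)
    (T : Set (Σ v : V, Fin (w v))) (hT : ((blow G w).induce T).CliqueFree 3) :
    ((blow G w).induce T).Colorable 3 := by
  classical
  -- no triangle inside `T`
  have htri : ∀ x ∈ T, ∀ y ∈ T, ∀ z ∈ T, (blow G w).Adj x y → (blow G w).Adj x z →
      (blow G w).Adj y z → False := by
    intro x hx y hy z hz h1 h2 h3
    refine hT {⟨x, hx⟩, ⟨y, hy⟩, ⟨z, hz⟩} ?_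
    rw [SimpleGraph.is3Clique_triple_iff]
    exact ⟨h1, h2, h3⟩
  set T0 : Set V := {v | ∃ x ∈ T, x.1 = v} with hT0
  have hr : ∀ v : T0, ∃ x ∈ T, x.1 = v.1 := fun v => v.2
  choose r hrT hr1 using hr
  have hfree : (G.induce T0).CliqueFree 3 := by
    intro s hs
    rw [SimpleGraph.is3Clique_iff] at hs
    obtain ⟨a, b, c, hab, hac, hbc, -⟩ := hs
    have key : ∀ a b : T0, (G.induce T0).Adj a b → (blow G w).Adj (r a) (r b) := by
      intro a b hab
      have hab' : G.Adj a.1 b.1 := hab
      refine ⟨?_, Or.inr (by rw [hr1, hr1]; exact hab')⟩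
      intro h1
      have h2 : a.1 = b.1 := by rw [← hr1 a, ← hr1 b, h1]
      exact hab'.ne h2
    exact htri _ (hrT a) _ (hrT b) _ (hrT c) (key a b hab) (key a c hac) (key b c hbc)
  obtain ⟨C⟩ := h T0 hfree
  have hm : ∀ x : T, x.1.1 ∈ T0 := fun x => ⟨x.1, x.2, rfl⟩
  refine ⟨SimpleGraph.Coloring.mk
    (fun x : T => if x.1 = r ⟨x.1.1, hm x⟩ then C ⟨x.1.1, hm x⟩ else C ⟨x.1.1, hm x⟩ + 1) ?_⟩
  intro x y hxy
  have hxy' : (blow G w).Adj x.1 y.1 := hxy
  -- the representative of `x` is `x` or a neighbour of `x` in the same clique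
  have hrep : ∀ x : T, x.1 ≠ r ⟨x.1.1, hm x⟩ → (blow G w).Adj x.1 (r ⟨x.1.1, hm x⟩) := fun x h =>
    ⟨h, Or.inl (hr1 ⟨x.1.1, hm x⟩).symm⟩
  by_cases h1 : x.1.1 = y.1.1
  · have hv : (⟨x.1.1, hm x⟩ : T0) = ⟨y.1.1, hm y⟩ := Subtype.ext h1
    have hrr : r ⟨x.1.1, hm x⟩ = r ⟨y.1.1, hm y⟩ := by rw [hv]
    by_cases hx : x.1 = r ⟨x.1.1, hm x⟩ <;> by_cases hy : y.1 = r ⟨y.1.1, hm y⟩
    · exfalso
      apply hxy'.1
      rw [hx, hy, hrr]
    · rw [if_pos hx, if_neg hy, hv]
      generalize C ⟨y.1.1, hm y⟩ = t
      revert t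
      decide
    · rw [if_neg hx, if_pos hy, hv]
      generalize C ⟨y.1.1, hm y⟩ = t
      revert t
      decide
    · exfalso
      have h2 := hrep x hx
      have h3 := hrep y hy
      rw [← hrr] at h3
      exact htri _ x.2 _ y.2 _ (hrT _) hxy' h2 h3
  · have hG : G.Adj x.1.1 y.1.1 := hxy'.2.resolve_left h1
    have hx : x.1 = r ⟨x.1.1, hm x⟩ := by
      by_contra hx
      have h2 := hrep x hx
      refine htri _ x.2 _ y.2 _ (hrT ⟨x.1.1, hm x⟩) hxy' h2 ⟨?_, Or.inr ?_⟩
      · intro h3
        apply h1
        rw [h3, hr1]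
      · rw [hr1]
        exact hG.symm
    have hy : y.1 = r ⟨y.1.1, hm y⟩ := by
      by_contra hy
      have h2 := hrep y hy
      refine htri _ y.2 _ x.2 _ (hrT ⟨y.1.1, hm y⟩) hxy'.symm h2 ⟨?_, Or.inr ?_⟩
      · intro h3
        apply h1
        rw [h3, hr1]
      · rw [hr1]
        exact hG
    rw [if_pos hx, if_pos hy]
    exact C.valid (v := ⟨x.1.1, hm x⟩) (w := ⟨y.1.1, hm y⟩) hG

lemma split_of_blow {V : Type} [Finite V] {G : SimpleGraph V} (w : V → ℕ) (hw : ∀ v, 0 < w v)
    (h : PD (blow G w)) (S : Set V) (hS : S.Nonempty) : ∃ P W, GoodSplit G w S P W := by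
  classical
  obtain ⟨s, hs⟩ := hS
  obtain ⟨P', W', h1, h2, h3, Q', hQ1, hQ2, hQ3⟩ := h {x | x.1 ∈ S} ⟨⟨s, ⟨0, hw s⟩⟩, hs⟩
  set P : Set V := {v | ∃ i, (⟨v, i⟩ : Σ v : V, Fin (w v)) ∈ P'} with hP
  have hPS : P ⊆ S := by
    rintro v ⟨i, hi⟩
    have : (⟨v, i⟩ : Σ v : V, Fin (w v)) ∈ {x : Σ v : V, Fin (w v) | x.1 ∈ S} := by
      rw [← h1]
      exact Or.inl hi
    exact this
  have hr : ∀ v : P, ∃ i, (⟨v.1, i⟩ : Σ v : V, Fin (w v)) ∈ P' := fun v => v.2
  choose r hr using hr
  refine ⟨P, S \ P, Set.union_sdiff_cancel hPS, Set.disjoint_sdiff_right, ?_, ?_⟩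
  · exact Perfect.of_embedding
      { toFun := fun v => ⟨⟨v.1, r v⟩, hr v⟩
        inj' := by
          intro v v' hv
          have h4 : (⟨v.1, r v⟩ : Σ v : V, Fin (w v)) = ⟨v'.1, r v'⟩ := Subtype.mk.inj hv
          exact Subtype.ext (congrArg Sigma.fst h4)
        map_rel_iff' := by
          intro v v'
          constructor
          · intro h4
            have h5 : (blow G w).Adj ⟨v.1, r v⟩ ⟨v'.1, r v'⟩ := h4
            rcases h5.2 with h6 | h6
            · exfalso
              have h7 : v = v' := Subtype.ext h6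
              subst h7
              exact h5.1 rfl
            · exact h6
          · intro h4
            have h5 : G.Adj v.1 v'.1 := h4
            refine ⟨?_, Or.inr h5⟩
            intro h6
            exact h5.ne (congrArg Sigma.fst h6) } h3
  · refine ⟨Q'.image Sigma.fst, ?_, ?_, ?_⟩
    · intro v hv
      simp only [Finset.coe_image, Set.mem_image] at hv
      obtain ⟨x, hx, rfl⟩ := hv
      exact hQ1 hx
    · intro v hv u hu hvu
      simp only [Finset.coe_image, Set.mem_image] at hv hu
      obtain ⟨x, hx, rfl⟩ := hv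
      obtain ⟨y, hy, rfl⟩ := hu
      have hxy : x ≠ y := fun h => hvu (by rw [h])
      exact (hQ2 hx hy hxy).2.resolve_left hvu
    · intro K hK hKc
      have h4 := hQ3 (K.sigma fun _ => Finset.univ) (by
        intro x hx
        have hx1 : x.1 ∈ K := (Finset.mem_sigma.1 (Finset.mem_coe.1 hx)).1
        have hx2 : x ∈ P' ∪ W' := by
          rw [h1]
          exact (hK hx1).1
        rcases hx2 with hx3 | hx3
        · exact absurd ⟨x.2, hx3⟩ (hK hx1).2
        · exact hx3) (by
        intro x hx y hy hxy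
        have hx1 : x.1 ∈ K := (Finset.mem_sigma.1 (Finset.mem_coe.1 hx)).1
        have hy1 : y.1 ∈ K := (Finset.mem_sigma.1 (Finset.mem_coe.1 hy)).1
        refine ⟨hxy, ?_⟩
        by_cases h5 : x.1 = y.1
        · exact Or.inl h5
        · exact Or.inr (hKc hx1 hy1 h5))
      simp only [Finset.sum_const, smul_eq_mul, mul_one, Finset.card_sigma, Finset.card_univ,
        Fintype.card_fin] at h4
      refine h4.trans_le ?_
      have h5 : Q' ⊆ (Q'.image Sigma.fst).sigma fun _ => Finset.univ := by
        intro x hx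
        exact Finset.mem_sigma.2 ⟨Finset.mem_image_of_mem _ hx, Finset.mem_univ _⟩
      have h6 := Finset.card_le_card h5
      simpa only [Finset.card_sigma, Finset.card_univ, Fintype.card_fin] using h6

/-- Every bull-free minimally non-perfectly-weight-divisible graph is triangle-free if and only if
every bull-free graph whose triangle-free induced subgraphs are all 3-colourable is perfectly
divisible. -/
theorem result :
    (∀ (V : Type) [Finite V] (G : SimpleGraph V), BullFree G → MNWD G → G.CliqueFree 3) ↔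
      ∀ (V : Type) [Finite V] (G : SimpleGraph V), BullFree G →
        (∀ S : Set V, (G.induce S).CliqueFree 3 → (G.induce S).Colorable 3) → PD G := by
  constructor
  · intro h V _ G hG h3
    have hP : PWD G := by
      by_contra hcon
      obtain ⟨S, hS⟩ := exists_mnwd G hcon
      have h1 := h S (G.induce S) (hG.of_embedding (SimpleGraph.Embedding.induce S)) hS
      exact hS.1 (pwd_of_three (h3 S h1))
    exact hP _ (fun _ => Nat.one_pos)
  · intro h V _ G hG hM
    by_contra hcon
    apply hM.1
    intro w hw S hS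
    refine split_of_blow w hw (h _ (blow G w) (blow_bullFree w hG) ?_) S hS
    intro T hT
    refine blow_three w ?_ T hT
    intro S hS
    by_cases hSu : S = Set.univ
    · exfalso
      apply hcon
      subst hSu
      exact hS.comap ⟨(SimpleGraph.Embedding.toCopy
        { toFun := fun v => ⟨v, Set.mem_univ v⟩
          inj' := fun v v' hv => Subtype.mk.inj hv
          map_rel_iff' := Iff.rfl })⟩
    · exact three_of_pd hS (fun T hT => hM.2 S hSu _ (fun _ => Nat.one_pos) T hT)

end Pool.Agent.Results.MP_1d20d9_co.Pollyanna
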